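import Pool.Agent.Y230.TL.Stm
import Pool.Agent.W574.HS.Rep

set_option autoImplicit false
set_option linter.unusedSectionVars false
set_option linter.unusedVariables false

/-! # The expansion of a functional equation with polynomial coefficients

`hat_F_pow` and `desc_kd` are copied from `Pool/Agent/Y230/TH/Exp.lean` of helper230.
-/

namespace Pool.Agent.Y64.TL

open MvPolynomial
open Pool.Agent.W574.SM Pool.Agent.W574.HS
open Pool.Agent.Y230.TH (kd)
open Pool.Agent.Y230.TL (h0 RE StB)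

variable {ρ ι : Type} [Fintype ι] [DecidableEq ι]

theorem hat_F_pow (f : ι → MvPolynomial ρ ℂ) (g : MvPolynomial ρ ℂ) (N : ℕ) (α : ι →₀ ℕ) :
    hat ((univ f + rename Sum.inr g) ^ N) α =
      (N.descFactorial (∑ j, α j) : ℂ) • ((∏ j, f j ^ α j) * g ^ (N - ∑ j, α j)) := by
  rw [add_pow, hat_sum]
  have h1 : ∀ m ∈ Finset.range (N + 1), hat (univ f ^ m * rename Sum.inr g ^ (N - m) *
      ((N.choose m : ℕ) : MvPolynomial (ι ⊕ ρ) ℂ)) α = if ∑ j, α j = m then
        (N.descFactorial m : ℂ) • ((∏ j, f j ^ α j) * g ^ (N - m)) else 0 := by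
    intro m _
    have e : univ f ^ m * rename Sum.inr g ^ (N - m) *
        ((N.choose m : ℕ) : MvPolynomial (ι ⊕ ρ) ℂ) =
        C (N.choose m : ℂ) * (rename Sum.inr (g ^ (N - m)) * univ f ^ m) := by
      rw [map_pow, map_natCast]
      ring
    rw [e, hat_C_mul, hat_r, hat_univ_pow]
    split_ifs with h
    · rw [mul_smul_comm, smul_smul, Nat.descFactorial_eq_factorial_mul_choose, mul_comm (g ^ _)]
      congr 1
      push_cast
      ring
    · rw [mul_zero, smul_zero]
  rw [Finset.sum_congr rfl h1]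
  by_cases h : ∑ j, α j ≤ N
  · rw [Finset.sum_ite_eq, if_pos (Finset.mem_range.2 (by omega))]
  · rw [Finset.sum_ite_eq, if_neg (by rw [Finset.mem_range]; omega),
      Nat.descFactorial_eq_zero_iff_lt.2 (by omega), Nat.cast_zero, zero_smul]

theorem desc_kd (s : ι →₀ ℕ) (c : ι → ℤ) (h : ∀ j, 0 ≤ (s j : ℤ) + c j) (k : ℕ) :
    ((∑ j, s j + k + 1).descFactorial (∑ j, sh s c j) : ℂ) =
      ((∑ j, s j + k + 1).factorial : ℂ) / (k.factorial : ℂ) * kd k (∑ j, c j) := by
  have hsum : ((∑ j, sh s c j : ℕ) : ℤ) = ∑ j, s j + ∑ j, c j := by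
    push_cast
    rw [← Finset.sum_add_distrib]
    refine Finset.sum_congr rfl fun j _ => ?_
    rw [sh_apply, Int.toNat_of_nonneg (h j)]
  have hk : (k.factorial : ℂ) ≠ 0 := by exact_mod_cast Nat.factorial_ne_zero _
  unfold kd
  by_cases h1 : (k : ℤ) + 1 < ∑ j, c j
  · rw [if_pos h1, mul_zero, Nat.descFactorial_eq_zero_iff_lt.2, Nat.cast_zero]
    have : ((∑ j, s j : ℕ) : ℤ) = ∑ j, (s j : ℤ) := by push_cast; rfl
    omega
  · rw [if_neg h1]
    have h2 : ∑ j, sh s c j ≤ ∑ j, s j + k + 1 := by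
      have : ((∑ j, s j : ℕ) : ℤ) = ∑ j, (s j : ℤ) := by push_cast; rfl
      omega
    have h3 : (∑ j, s j + k + 1) - ∑ j, sh s c j = ((k : ℤ) + 1 - ∑ j, c j).toNat := by
      have : ((∑ j, s j : ℕ) : ℤ) = ∑ j, (s j : ℤ) := by push_cast; rfl
      omega
    have h4 := Nat.factorial_mul_descFactorial h2
    rw [h3] at h4
    have h5 : ((((k : ℤ) + 1 - ∑ j, c j).toNat.factorial : ℕ) : ℂ) ≠ 0 := by
      exact_mod_cast Nat.factorial_ne_zero _
    rw [← h4]
    push_cast
    field_simp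


theorem mul_mem (a : MvPolynomial ρ ℂ) : LinearMap.mulLeft ℂ a ∈ weyl ρ := by
  induction a using MvPolynomial.induction_on with
  | C r =>
    have : LinearMap.mulLeft ℂ (C r : MvPolynomial ρ ℂ) =
        algebraMap ℂ (Module.End ℂ (MvPolynomial ρ ℂ)) r := by
      apply LinearMap.ext
      intro x
      rw [LinearMap.mulLeft_apply, Module.algebraMap_end_apply, C_mul']
    rw [this]
    exact Subalgebra.algebraMap_mem _ _
  | add p q hp hq =>
    have : LinearMap.mulLeft ℂ (p + q) = LinearMap.mulLeft ℂ p + LinearMap.mulLeft ℂ q := by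
      apply LinearMap.ext
      intro x
      rw [LinearMap.add_apply, LinearMap.mulLeft_apply, LinearMap.mulLeft_apply,
        LinearMap.mulLeft_apply, add_mul]
    rw [this]
    exact Subalgebra.add_mem _ hp hq
  | mul_X p i hp =>
    have : LinearMap.mulLeft ℂ (p * X i) =
        LinearMap.mulLeft ℂ p * LinearMap.mulLeft ℂ (X i) := by
      apply LinearMap.ext
      intro x
      rw [Module.End.mul_apply, LinearMap.mulLeft_apply, LinearMap.mulLeft_apply,
        LinearMap.mulLeft_apply, mul_assoc]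
    rw [this]
    exact Subalgebra.mul_mem _ hp (Algebra.subset_adjoin (Or.inl ⟨i, rfl⟩))

theorem fall_bump (c : ι → ℤ) (s : ι →₀ ℕ) (j : ι) (hc : c j ≤ 0) :
    sh s c j * fall c s = fall (bump c j (-1)) s := by
  rw [← one_mul (fall (bump c j (-1)) s)]
  unfold fall
  apply prod_single_eq j
  · intro l hl
    rw [bump_ne _ _ hl]
  · rw [bump_same, sh_apply, one_mul]
    have h1 : (-(c j + -1)).toNat = (-c j).toNat + 1 := by omega
    have h2 : ((s j : ℤ) + c j).toNat = s j - (-c j).toNat := by omega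
    rw [h1, h2, Nat.descFactorial_succ]

theorem sh_bump (c : ι → ℤ) (s : ι →₀ ℕ) (j : ι) :
    sh s c - Finsupp.single j 1 = sh s (bump c j (-1)) := by
  ext l
  rw [Finsupp.tsub_apply, sh_apply, sh_apply]
  by_cases hl : l = j
  · subst hl
    rw [bump_same, Finsupp.single_eq_same]
    omega
  · rw [bump_ne _ _ hl, Finsupp.single_eq_of_ne hl]
    omega

theorem sum_bump (c : ι → ℤ) (j : ι) : ∑ l, bump c j (-1) l = ∑ l, c l - 1 := by
  rw [← Finset.add_sum_erase _ _ (Finset.mem_univ j),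
    ← Finset.add_sum_erase _ c (Finset.mem_univ j), bump_same]
  have : ∑ x ∈ Finset.univ.erase j, bump c j (-1) x = ∑ x ∈ Finset.univ.erase j, c x :=
    Finset.sum_congr rfl fun l hl => bump_ne _ _ (Finset.ne_of_mem_erase hl)
  rw [this]
  ring

theorem bump_le (c : ι → ℤ) (j : ι) (h : ∀ l, c l ≤ 0) (l : ι) : bump c j (-1) l ≤ 0 := by
  by_cases hl : l = j
  · subst hl
    rw [bump_same]
    have := h l
    omega
  · rw [bump_ne _ _ hl]
    exact h l

theorem hat_X_bump (c : ι → ℤ) (s : ι →₀ ℕ) (j : ι) (hc : c j ≤ 0)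
    (H : MvPolynomial (ι ⊕ ρ) ℂ) (a : MvPolynomial ρ ℂ) :
    (fall c s : ℂ) • (a * hat (X (Sum.inl j) * H) (sh s c)) =
      (fall (bump c j (-1)) s : ℂ) • (a * hat H (sh s (bump c j (-1)))) := by
  rw [hat_Xl, sh_bump, mul_smul_comm, smul_smul, ← fall_bump c s j hc]
  congr 1
  push_cast
  ring

/-- the product with a polynomial in terms of the normalized coefficients -/
theorem left_exp (G : MvPolynomial (ι ⊕ ρ) ℂ) : ∃ (κ : Type) (_ : Fintype κ) (c : κ → ι → ℤ)
    (a : κ → MvPolynomial ρ ℂ), (∀ i j, c i j ≤ 0) ∧ (∀ i, ∑ j, c i j ≤ -1) ∧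
    ∀ (H : MvPolynomial (ι ⊕ ρ) ℂ) (s : ι →₀ ℕ), hat (G * H) s = h0 G * hat H s +
      ∑ i, (fall (c i) s : ℂ) • (a i * hat H (sh s (c i))) := by
  induction G using MvPolynomial.induction_on with
  | C r =>
    refine ⟨Empty, inferInstance, fun k => k.elim, fun k => k.elim, fun k => k.elim,
      fun k => k.elim, fun H s => ?_⟩
    have : h0 (C r : MvPolynomial (ι ⊕ ρ) ℂ) = C r := by
      unfold h0
      rw [aeval_C]
      rfl
    rw [hat_C_mul, this, C_mul']
    simp
  | add p q hp hq =>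
    obtain ⟨κ1, i1, c1, a1, u1, v1, w1⟩ := hp
    obtain ⟨κ2, i2, c2, a2, u2, v2, w2⟩ := hq
    refine ⟨κ1 ⊕ κ2, inferInstance, Sum.elim c1 c2, Sum.elim a1 a2, ?_, ?_, fun H s => ?_⟩
    · rintro (i | i)
      · exact u1 i
      · exact u2 i
    · rintro (i | i)
      · exact v1 i
      · exact v2 i
    · rw [add_mul, hat_add, w1, w2, Fintype.sum_sum_type, map_add]
      simp only [Sum.elim_inl, Sum.elim_inr]
      ring
  | mul_X p i hp =>
    obtain ⟨κ, i1, c, a, u, v, w⟩ := hp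
    rcases i with j | j
    · refine ⟨Option κ, inferInstance, fun o => o.elim (bump (fun _ => 0) j (-1))
        (fun i => bump (c i) j (-1)), fun o => o.elim (h0 p) a, ?_, ?_, fun H s => ?_⟩
      · rintro (_ | i)
        · exact bump_le _ _ fun _ => le_rfl
        · exact bump_le _ _ (u i)
      · rintro (_ | i)
        · show ∑ l, bump (fun _ => (0 : ℤ)) j (-1) l ≤ -1
          rw [sum_bump]
          simp
        · show ∑ l, bump (c i) j (-1) l ≤ -1
          rw [sum_bump]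
          have := v i
          omega
      · have h1 : h0 (p * X (Sum.inl j) : MvPolynomial (ι ⊕ ρ) ℂ) = 0 := by
          rw [map_mul]
          have : h0 (X (Sum.inl j) : MvPolynomial (ι ⊕ ρ) ℂ) = (0 : MvPolynomial ρ ℂ) := by
            unfold h0
            rw [aeval_X, Sum.elim_inl]
          rw [this, mul_zero]
        have h2 : h0 p * hat (X (Sum.inl j) * H) s =
            (fall (bump (fun _ => 0) j (-1)) s : ℂ) •
              (h0 p * hat H (sh s (bump (fun _ => 0) j (-1)))) := by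
          rw [← hat_X_bump (fun _ => 0) s j le_rfl H (h0 p)]
          have h3 : sh s (fun _ => 0) = s := by
            ext l
            rw [sh_apply]
            simp
          have h4 : fall (fun _ : ι => (0 : ℤ)) s = 1 := by
            unfold fall
            simp
          rw [h3, h4, Nat.cast_one, one_smul]
        rw [mul_assoc, w, h1, zero_mul, zero_add, Fintype.sum_option, h2]
        congr 1
        refine Finset.sum_congr rfl fun i _ => ?_
        exact hat_X_bump (c i) s j (u i j) H (a i)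
    · refine ⟨κ, i1, c, fun i => X j * a i, u, v, fun H s => ?_⟩
      have h1 : h0 (p * X (Sum.inr j) : MvPolynomial (ι ⊕ ρ) ℂ) = X j * h0 p := by
        rw [map_mul, mul_comm]
        congr 1
        unfold h0
        rw [aeval_X, Sum.elim_inr]
      rw [mul_comm p, mul_assoc, hat_Xr, w, mul_comm (X (Sum.inr j)) p, h1, mul_add,
        Finset.mul_sum, mul_assoc]
      congr 1
      refine Finset.sum_congr rfl fun i _ => ?_
      rw [mul_smul_comm, mul_assoc]

theorem left_desc (s : ι →₀ ℕ) (c : ι → ℤ) (h : ∀ j, 0 ≤ (s j : ℤ) + c j)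
    (hc : ∑ j, c j ≤ -1) (k : ℕ) :
    ((∑ j, s j + k).descFactorial (∑ j, sh s c j) : ℂ) =
      ((∑ j, s j + k).factorial : ℂ) / (k.factorial : ℂ) * kd k (1 + ∑ j, c j) ∧
    (∑ j, s j + k) - ∑ j, sh s c j = ((k : ℤ) + 1 - (1 + ∑ j, c j)).toNat := by
  have hsum : ((∑ j, sh s c j : ℕ) : ℤ) = ∑ j, s j + ∑ j, c j := by
    push_cast
    rw [← Finset.sum_add_distrib]
    refine Finset.sum_congr rfl fun j _ => ?_
    rw [sh_apply, Int.toNat_of_nonneg (h j)]
  have hk : (k.factorial : ℂ) ≠ 0 := by exact_mod_cast Nat.factorial_ne_zero _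
  have h0 : ((∑ j, s j : ℕ) : ℤ) = ∑ j, (s j : ℤ) := by push_cast; rfl
  have h3 : (∑ j, s j + k) - ∑ j, sh s c j = ((k : ℤ) + 1 - (1 + ∑ j, c j)).toNat := by
    omega
  refine ⟨?_, h3⟩
  have h2 : ∑ j, sh s c j ≤ ∑ j, s j + k := by omega
  have h4 := Nat.factorial_mul_descFactorial h2
  rw [h3] at h4
  have h5 : ((((k : ℤ) + 1 - (1 + ∑ j, c j)).toNat.factorial : ℕ) : ℂ) ≠ 0 := by
    exact_mod_cast Nat.factorial_ne_zero _
  unfold kd
  rw [if_neg (by omega), ← h4]
  push_cast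
  field_simp

theorem fall_zero (s : ι →₀ ℕ) (c : ι → ℤ) (h : ¬ ∀ j, 0 ≤ (s j : ℤ) + c j) : fall c s = 0 := by
  push Not at h
  obtain ⟨j, hj⟩ := h
  refine Finset.prod_eq_zero (Finset.mem_univ j) ?_
  rw [Nat.descFactorial_eq_zero_iff_lt]
  omega

theorem tB : Pool.Agent.Y230.TL.StB := by
  intro ρ ι _ _ _ f g B P hRE
  classical
  choose E hE1 hE2 using fun m : ℕ => rep_weylS (σ := ρ) (ι := ι) (P m).1 (P m).2 _ rep_id
  choose κR hκR cR qR R hR using hE1
  choose κL hκL cL aL hL1 hL2 hL3 using fun n : ℕ => left_exp (B.coeff n)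
  refine ⟨(Σ m : P.support, κR m) ⊕ (Σ n : B.support, κL n), inferInstance,
    Sum.elim (fun i => cR i.1 i.2) (fun i => cL i.1 i.2),
    Sum.elim (fun i => ∑ j, cR i.1 i.2 j) (fun i => 1 + ∑ j, cL i.1 i.2 j),
    Sum.elim (fun i => qR i.1 i.2) (fun _ => C (-1)),
    Sum.elim (fun i => (i.1 : ℕ)) (fun i => (i.1 : ℕ)),
    Sum.elim (fun i => R i.1 i.2) (fun i => ⟨_, mul_mem (aL i.1 i.2)⟩), ?_, fun s k => ?_⟩
  · rintro (i | i) h
    · exact h
    · exfalso
      have h1 : 1 ≤ 1 + ∑ j, cL i.1 i.2 j := h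
      have h2 := hL2 i.1 i.2
      omega
  set N := ∑ j, s j + k with hN
  have hk0 : (k.factorial : ℂ) ≠ 0 := by exact_mod_cast Nat.factorial_ne_zero _
  have h1 := congrArg (fun G => hat G s) (hRE N)
  rw [hat_smul, Finsupp.sum, hat_sum] at h1
  have h2 : ∀ m ∈ P.support, hat (((N : ℂ) ^ m) • ((P m : Module.End ℂ (MvPolynomial (ι ⊕ ρ) ℂ))
      ((univ f + rename Sum.inr g) ^ (N + 1)))) s = ∑ i : κR m,
        (((N + 1).factorial : ℂ) / (k.factorial : ℂ)) •
        (((N : ℂ) ^ m * (evN s (qR m i) * (fall (cR m i) s : ℂ)) *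
            kd k (∑ j, cR m i j)) •
          (R m i : Module.End ℂ (MvPolynomial ρ ℂ))
            ((∏ j, f j ^ (sh s (cR m i)) j) * g ^ ((k : ℤ) + 1 - ∑ j, cR m i j).toNat)) := by
    intro m _
    rw [hat_smul, hE2 m _ (hat ((univ f + rename Sum.inr g) ^ (N + 1))) rfl, hR, Finset.smul_sum]
    refine Finset.sum_congr rfl fun i _ => ?_
    by_cases hpos : ∀ j, 0 ≤ (s j : ℤ) + cR m i j
    · rw [hat_F_pow, desc_kd s (cR m i) hpos k, map_smul, smul_smul, smul_smul, smul_smul]
      by_cases h3 : (k : ℤ) + 1 < ∑ j, cR m i j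
      · have h4 : kd k (∑ j, cR m i j) = 0 := by
          unfold kd
          rw [if_pos h3]
        rw [h4]
        simp
      · have hsum : ((∑ j, sh s (cR m i) j : ℕ) : ℤ) = ∑ j, s j + ∑ j, cR m i j := by
          push_cast
          rw [← Finset.sum_add_distrib]
          refine Finset.sum_congr rfl fun j _ => ?_
          rw [sh_apply, Int.toNat_of_nonneg (hpos j)]
        have h5 : N + 1 - ∑ j, sh s (cR m i) j = ((k : ℤ) + 1 - ∑ j, cR m i j).toNat := by
          have : ((∑ j, s j : ℕ) : ℤ) = ∑ j, (s j : ℤ) := by push_cast; rfl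
          omega
        rw [h5]
        congr 1
        ring
    · rw [fall_zero s (cR m i) hpos]
      simp
  rw [Finset.sum_congr rfl h2] at h1
  have h3 : N - ∑ j, s j = k := by omega
  have h4 : (N.descFactorial (∑ j, s j) : ℂ) = (N.factorial : ℂ) / (k.factorial : ℂ) := by
    have := Nat.factorial_mul_descFactorial (show ∑ j, s j ≤ N by omega)
    rw [h3] at this
    rw [← this]
    push_cast
    field_simp
  -- the left side
  have hB : B.eval (N : MvPolynomial (ι ⊕ ρ) ℂ) * (univ f + rename Sum.inr g) ^ N =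
      ∑ n ∈ B.support, ((N : ℂ) ^ n) • (B.coeff n * (univ f + rename Sum.inr g) ^ N) := by
    rw [Polynomial.eval_eq_sum, Polynomial.sum, Finset.sum_mul]
    refine Finset.sum_congr rfl fun n _ => ?_
    rw [← C_mul', map_pow, map_natCast]
    ring
  have hB0 : h0 (B.eval (N : MvPolynomial (ι ⊕ ρ) ℂ)) =
      ∑ n ∈ B.support, ((N : ℂ) ^ n) • h0 (B.coeff n) := by
    rw [Polynomial.eval_eq_sum, Polynomial.sum, map_sum]
    refine Finset.sum_congr rfl fun n _ => ?_
    rw [map_mul, map_pow, map_natCast, ← C_mul', map_pow, map_natCast]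
    ring
  have hLn : ∀ n, hat (B.coeff n * (univ f + rename Sum.inr g) ^ N) s =
      ((N.factorial : ℂ) / (k.factorial : ℂ)) • (h0 (B.coeff n) * ((∏ j, f j ^ s j) * g ^ k) +
        ∑ i : κL n, ((fall (cL n i) s : ℂ) * kd k (1 + ∑ j, cL n i j)) • (aL n i *
          ((∏ j, f j ^ (sh s (cL n i)) j) *
            g ^ ((k : ℤ) + 1 - (1 + ∑ j, cL n i j)).toNat))) := by
    intro n
    rw [hL3, hat_F_pow, h3, h4, smul_add, mul_smul_comm, Finset.smul_sum]
    congr 1
    refine Finset.sum_congr rfl fun i _ => ?_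
    by_cases hpos : ∀ j, 0 ≤ (s j : ℤ) + cL n i j
    · obtain ⟨e1, e2⟩ := left_desc s (cL n i) hpos (hL2 n i) k
      rw [hat_F_pow, e1, e2, mul_smul_comm, smul_smul, smul_smul]
      congr 1
      ring
    · rw [fall_zero s (cL n i) hpos]
      simp
  rw [hB, hat_sum] at h1
  simp only [hat_smul, hLn] at h1
  have h6 : (((N + 1).factorial : ℂ) / (k.factorial : ℂ)) ≠ 0 :=
    div_ne_zero (by exact_mod_cast Nat.factorial_ne_zero _) hk0
  have h7 : ((N : ℂ) + 1) * ((N.factorial : ℂ) / (k.factorial : ℂ)) =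
      (((N + 1).factorial : ℂ) / (k.factorial : ℂ)) := by
    rw [Nat.factorial_succ]
    push_cast
    ring
  refine smul_right_injective (MvPolynomial ρ ℂ) h6 ?_
  beta_reduce
  rw [Fintype.sum_sum_type, Fintype.sum_sigma, Fintype.sum_sigma, smul_add]
  simp only [Sum.elim_inl, Sum.elim_inr]
  have h8 : (((N + 1).factorial : ℂ) / (k.factorial : ℂ)) • ∑ m : P.support, ∑ i : κR m,
      (((N : ℂ) ^ (m : ℕ) * (evN s (qR m i) * (fall (cR m i) s : ℂ)) *
            kd k (∑ j, cR m i j)) •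
          (R m i : Module.End ℂ (MvPolynomial ρ ℂ))
            ((∏ j, f j ^ (sh s (cR m i)) j) * g ^ ((k : ℤ) + 1 - ∑ j, cR m i j).toNat)) =
      ((N : ℂ) + 1) • ∑ n ∈ B.support, (N : ℂ) ^ n • (((N.factorial : ℂ) / (k.factorial : ℂ)) •
        (h0 (B.coeff n) * ((∏ j, f j ^ s j) * g ^ k) +
        ∑ i : κL n, ((fall (cL n i) s : ℂ) * kd k (1 + ∑ j, cL n i j)) • (aL n i *
          ((∏ j, f j ^ (sh s (cL n i)) j) *
            g ^ ((k : ℤ) + 1 - (1 + ∑ j, cL n i j)).toNat)))) := by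
    rw [h1, Finset.smul_sum, ← Finset.sum_coe_sort P.support]
    refine Finset.sum_congr rfl fun m _ => ?_
    rw [Finset.smul_sum]
  rw [h8, hB0, Finset.smul_sum, Finset.sum_mul, Finset.smul_sum, Finset.smul_sum,
    ← Finset.sum_coe_sort B.support, ← Finset.sum_coe_sort B.support, ← Finset.sum_add_distrib]
  refine Finset.sum_congr rfl fun n _ => ?_
  have h9 : ∑ i : κL n, (((N : ℂ) ^ (n : ℕ) * (evN s (C (-1)) * (fall (cL n i) s : ℂ)) *
      kd k (1 + ∑ j, cL n i j)) • (LinearMap.mulLeft ℂ (aL n i))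
        ((∏ j, f j ^ (sh s (cL n i)) j) * g ^ ((k : ℤ) + 1 - (1 + ∑ j, cL n i j)).toNat)) =
      (-(N : ℂ) ^ (n : ℕ)) • ∑ i : κL n, ((fall (cL n i) s : ℂ) * kd k (1 + ∑ j, cL n i j)) •
        (aL n i * ((∏ j, f j ^ (sh s (cL n i)) j) *
            g ^ ((k : ℤ) + 1 - (1 + ∑ j, cL n i j)).toNat)) := by
    rw [Finset.smul_sum]
    refine Finset.sum_congr rfl fun i _ => ?_
    rw [LinearMap.mulLeft_apply, smul_smul]
    congr 1
    unfold evN
    rw [eval_C]
    ring
  rw [h9, ← h7]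
  simp only [smul_add, smul_smul, smul_mul_assoc]
  module

end Pool.Agent.Y64.TL
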